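import Mathlib

/-!
# Project MM: the standard map for large parameters (MP_9ee088_an), statements of the parts
-/

open MeasureTheory Filter Topology Finset

namespace Pool.Agent.W564.MM

abbrev T1 := UnitAddCircle

/-- `sin (2πx)` on the circle -/
noncomputable def sn (x : T1) : ℝ := (fourier 1 x : ℂ).im

/-- `cos (2πx)` on the circle -/
noncomputable def cs (x : T1) : ℝ := (fourier 1 x : ℂ).re

/-- The standard map. -/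
noncomputable def SM (a : ℝ) (p : T1 × T1) : T1 × T1 :=
  (2 • p.1 - p.2 + ((a * sn p.1 : ℝ) : T1), p.1)

/-- The coordinates of the orbit: `xx 0 = y`, `xx 1 = x`, `xx (i+2) = 2 xx (i+1) - xx i + a sin (2π xx (i+1))`. -/
noncomputable def xx (a : ℝ) : ℕ → T1 × T1 → T1
  | 0, p => p.2
  | 1, p => p.1
  | (i + 2), p => 2 • xx a (i + 1) p - xx a i p + ((a * sn (xx a (i + 1) p) : ℝ) : T1)

/-- BAS: basic facts. -/
def S_BAS : Prop :=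
  (∀ x : ℝ, sn (x : T1) = Real.sin (2 * Real.pi * x)) ∧
  (∀ x : ℝ, cs (x : T1) = Real.cos (2 * Real.pi * x)) ∧
  (∀ (x : T1) (d : ℝ), |sn (x + (d : T1)) - sn x - 2 * Real.pi * cs x * d| ≤
    2 * Real.pi ^ 2 * d ^ 2) ∧
  (∀ (a : ℝ) (i : ℕ) (p : T1 × T1), (SM a)^[i] p = (xx a (i + 1) p, xx a i p)) ∧
  (∀ (a : ℝ) (i : ℕ), Continuous (xx a i)) ∧
  (∀ a : ℝ, MeasurePreserving (SM a) volume volume) ∧
  (∀ (a : ℝ) (i : ℕ), MeasurePreserving (xx a i) (volume : Measure (T1 × T1)) volume)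

/-- SHIFT: effect of a small shift of the initial point. -/
def S_SHIFT : Prop :=
  ∀ (r : ℕ), 1 ≤ r → ∀ T₀ : ℝ, 0 < T₀ → ∃ C : ℝ, ∀ a : ℝ, 1 ≤ |a| → ∀ τ : ℝ, |τ| ≤ T₀ →
    ∀ p : T1 × T1, ∃ D : ℕ → ℝ,
      (∀ i, xx a i (p.1 + ((τ / a ^ (r - 1) : ℝ) : T1), p.2) = xx a i p + (D i : T1)) ∧
      (∀ i < r, |D i| ≤ C / |a|) ∧
      |D r - τ * ∏ i ∈ Finset.Ico 1 r, (2 * Real.pi * cs (xx a i p))| ≤ C / |a|

/-- KEY: asymptotic independence of the coordinates of the orbit. -/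
def S_KEY : Prop :=
  ∀ (r : ℕ), 1 ≤ r → ∀ c : ℕ → ℤ, c r ≠ 0 → ∀ ε : ℝ, 0 < ε → ∃ a₀ : ℝ, ∀ a : ℝ, a₀ ≤ |a| →
    ‖∫ p : T1 × T1, ∏ i ∈ Finset.range (r + 1), (fourier (c i) (xx a i p) : ℂ)‖ ≤ ε

/-- AVG: ergodic averages of a continuous function of mean zero. -/
def S_AVG : Prop :=
  ∀ g : C(T1 × T1, ℂ), ∫ p, g p = 0 → ∀ ε : ℝ, 0 < ε → ∃ n : ℕ, 1 ≤ n ∧ ∃ a₀ : ℝ, ∀ a : ℝ,
    a₀ ≤ |a| → ∫ p, ‖(n : ℂ)⁻¹ * ∑ j ∈ Finset.range n, g ((SM a)^[j] p)‖ ^ 2 ≤ ε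

/-- INV: invariant sets are nearly independent of any given set. -/
def S_INV : Prop :=
  ∀ B : Set (T1 × T1), MeasurableSet B → ∀ ε : ℝ, 0 < ε → ∃ a₀ : ℝ, ∀ a : ℝ, a₀ ≤ |a| →
    ∀ A : Set (T1 × T1), MeasurableSet A → (SM a) ⁻¹' A = A →
      |volume.real (A ∩ B) - volume.real A * volume.real B| ≤ ε

/-- The arc of length `l` starting at `s`. -/
def arc (s l : ℝ) : Set T1 := (fun x : ℝ => (x : T1)) '' Set.Ico s (s + l)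

/-- ORB: for all large `|a|`, all but `ε` of the orbits have asymptotic discrepancy at most `ε`. -/
def S_ORB : Prop :=
  ∀ ε : ℝ, 0 < ε → ∃ a₀ : ℝ, ∀ a : ℝ, a₀ ≤ |a| → ∃ E : Set (T1 × T1), MeasurableSet E ∧
    volume.real E ≤ ε ∧ ∀ p ∉ E, ∀ᶠ n : ℕ in atTop, ∀ s l s' l' : ℝ, 0 ≤ l → l ≤ 1 → 0 ≤ l' →
      l' ≤ 1 →
      |(Set.ncard {j | j < n ∧ (SM a)^[j] p ∈ arc s l ×ˢ arc s' l'} : ℝ) / n - l * l'| ≤ ε

end Pool.Agent.W564.MM
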