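import Pool.Agent.W564.MM.Defs

/-!
# Project MM: two more statements
-/

open MeasureTheory Filter Topology Finset

namespace Pool.Agent.W564.MM

/-- JOINT: the first `r` coordinates of the orbit are asymptotically independent and uniformly
distributed. -/
def S_JOINT : Prop :=
  ∀ (r : ℕ) (F : C(Fin r → T1, ℂ)), Tendsto (fun a : ℝ => ∫ p : T1 × T1, F (fun i => xx a i p))
    (cocompact ℝ) (𝓝 (∫ z, F z))

/-- UNI: invariant sets are nearly independent of all boxes. -/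
def S_UNI : Prop :=
  ∀ ε : ℝ, 0 < ε → ∃ a₀ : ℝ, ∀ a : ℝ, a₀ ≤ |a| → ∀ A : Set (T1 × T1), MeasurableSet A →
    (SM a) ⁻¹' A = A → ∀ s l s' l' : ℝ, 0 ≤ l → l ≤ 1 → 0 ≤ l' → l' ≤ 1 →
      |volume.real (A ∩ arc s l ×ˢ arc s' l') - volume.real A * (l * l')| ≤ ε

end Pool.Agent.W564.MM
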