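import Pool.Agent.W564.MM.Defs2

/-!
# Project MM: assembling
-/

open MeasureTheory Filter Topology Finset

namespace Pool.Agent.W564.MM

/-- `T` is the standard map with parameter `a`. -/
def IsStd (a : ℝ) (T : UnitAddCircle × UnitAddCircle → UnitAddCircle × UnitAddCircle) : Prop :=
  ∀ x y : ℝ, T ((x : UnitAddCircle), (y : UnitAddCircle)) =
    (((2 * x - y + a * Real.sin (2 * Real.pi * x) : ℝ) : UnitAddCircle), (x : UnitAddCircle))

theorem coe_std (a x y : ℝ) :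
    (((2 * x - y + a * Real.sin (2 * Real.pi * x) : ℝ) : T1)) =
      2 • ((x : ℝ) : T1) - ((y : ℝ) : T1) + ((a * Real.sin (2 * Real.pi * x) : ℝ) : T1) := by
  rw [two_nsmul, ← AddCircle.coe_add, ← AddCircle.coe_sub, ← AddCircle.coe_add]
  congr 1
  ring

theorem IsStd.eq (h : S_BAS) {a : ℝ} {T : T1 × T1 → T1 × T1} (hT : IsStd a T) : T = SM a := by
  funext p
  obtain ⟨p1, p2⟩ := p
  induction p1 using QuotientAddGroup.induction_on with
  | H x =>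
    induction p2 using QuotientAddGroup.induction_on with
    | H y =>
      have e := hT x y
      have hs : sn ((x : ℝ) : T1) = Real.sin (2 * Real.pi * x) := h.1 x
      refine e.trans ?_
      rw [coe_std, ← hs]
      rfl

theorem isStd_SM (h : S_BAS) (a : ℝ) : IsStd a (SM a) := by
  intro x y
  have hs : sn ((x : ℝ) : T1) = Real.sin (2 * Real.pi * x) := h.1 x
  rw [coe_std, ← hs]
  rfl

/-- the conclusions, in terms of the maps `T` -/
theorem joint_T (h : S_BAS) (hJ : S_JOINT) (r : ℕ) (F : C(Fin r → T1, ℂ)) (ε : ℝ) (hε : 0 < ε) :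
    ∃ a₀ : ℝ, ∀ a : ℝ, a₀ ≤ |a| → ∀ T : T1 × T1 → T1 × T1, IsStd a T →
      ‖(∫ p : T1 × T1, F (fun i => (T^[(i : ℕ)] p).2)) - ∫ z, F z‖ ≤ ε := by
  have h1 := hJ r F
  have h2 := (Metric.tendsto_nhds.mp h1) ε hε
  rw [← Metric.cobounded_eq_cocompact] at h2
  rw [Filter.Eventually, ← comap_norm_atTop, mem_comap] at h2
  obtain ⟨t, ht, hsub⟩ := h2
  obtain ⟨a₀, ha₀⟩ := mem_atTop_sets.mp ht
  refine ⟨a₀, fun a ha T hT => ?_⟩
  have hTa := hT.eq h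
  subst hTa
  have h3 : a ∈ (norm : ℝ → ℝ) ⁻¹' t := ha₀ _ (by simpa using ha)
  have h4 := hsub h3
  simp only [Set.mem_ofPred_eq, dist_eq_norm] at h4
  refine le_of_lt ?_
  have h5 : (fun p : T1 × T1 => F (fun i : Fin r => ((SM a)^[(i : ℕ)] p).2)) =
      fun p => F (fun i : Fin r => xx a i p) := by
    funext p
    congr 1
    funext i
    rw [h.2.2.2.1 a i p]
  rw [h5]
  exact h4

theorem inv_T (h : S_BAS) (hI : S_INV) (B : Set (T1 × T1)) (hB : MeasurableSet B) (ε : ℝ)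
    (hε : 0 < ε) :
    ∃ a₀ : ℝ, ∀ a : ℝ, a₀ ≤ |a| → ∀ T : T1 × T1 → T1 × T1, IsStd a T →
      ∀ A : Set (T1 × T1), MeasurableSet A → T ⁻¹' A = A →
      |volume.real (A ∩ B) - volume.real A * volume.real B| ≤ ε := by
  obtain ⟨a₀, ha₀⟩ := hI B hB ε hε
  refine ⟨a₀, fun a ha T hT => ?_⟩
  have hTa := hT.eq h
  subst hTa
  exact ha₀ a ha

theorem uni_T (h : S_BAS) (hU : S_UNI) (ε : ℝ) (hε : 0 < ε) :
    ∃ a₀ : ℝ, ∀ a : ℝ, a₀ ≤ |a| → ∀ T : T1 × T1 → T1 × T1, IsStd a T →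
      ∀ A : Set (T1 × T1), MeasurableSet A → T ⁻¹' A = A → ∀ s l s' l' : ℝ, 0 ≤ l → l ≤ 1 →
      0 ≤ l' → l' ≤ 1 →
      |volume.real (A ∩ arc s l ×ˢ arc s' l') - volume.real A * (l * l')| ≤ ε := by
  obtain ⟨a₀, ha₀⟩ := hU ε hε
  refine ⟨a₀, fun a ha T hT => ?_⟩
  have hTa := hT.eq h
  subst hTa
  exact ha₀ a ha

theorem dist_arc {x : ℝ} {ρ : ℝ} {z : T1} (hz : z ∈ arc (x - ρ / 2) ρ) :
    dist z (x : T1) ≤ ρ / 2 := by
  obtain ⟨w, hw, rfl⟩ := hz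
  have h1 : |w - x| ≤ ρ / 2 := by
    rw [abs_le]
    constructor <;> linarith [hw.1, hw.2]
  rw [dist_eq_norm, ← AddCircle.coe_sub, AddCircle.norm_eq]
  have h2 := round_le (1⁻¹ * (w - x)) 0
  simp only [inv_one, one_mul, Int.cast_zero, sub_zero, mul_one] at h2 ⊢
  exact h2.trans h1

theorem orb_T (h : S_BAS) (hO : S_ORB) (ε : ℝ) (hε : 0 < ε) :
    ∃ a₀ : ℝ, ∀ a : ℝ, a₀ ≤ |a| → ∀ T : T1 × T1 → T1 × T1, IsStd a T →
      ∃ E : Set (T1 × T1), MeasurableSet E ∧ volume.real E ≤ ε ∧ ∀ p ∉ E,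
        (∀ᶠ n : ℕ in atTop, ∀ s l s' l' : ℝ, 0 ≤ l → l ≤ 1 → 0 ≤ l' → l' ≤ 1 →
          |(Set.ncard {j | j < n ∧ T^[j] p ∈ arc s l ×ˢ arc s' l'} : ℝ) / n - l * l'| ≤ ε) ∧
        ∀ q : T1 × T1, ∃ j : ℕ, dist (T^[j] p) q ≤ ε := by
  set ρ : ℝ := min ε 1 with hρ
  have hρ0 : 0 < ρ := by positivity
  have hρ1 : ρ ≤ 1 := min_le_right _ _
  have hρε : ρ ≤ ε := min_le_left _ _
  set δ : ℝ := min ε (ρ ^ 2 / 2) with hδ
  have hδ0 : 0 < δ := by positivity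
  have hδε : δ ≤ ε := min_le_left _ _
  have hδρ : δ ≤ ρ ^ 2 / 2 := min_le_right _ _
  obtain ⟨a₀, ha₀⟩ := hO δ hδ0
  refine ⟨a₀, fun a ha T hT => ?_⟩
  have hTa := hT.eq h
  subst hTa
  obtain ⟨E, hE, hEε, hp⟩ := ha₀ a ha
  refine ⟨E, hE, hEε.trans hδε, fun p hpE => ⟨?_, ?_⟩⟩
  · filter_upwards [hp p hpE] with n hn s l s' l' h1 h2 h3 h4
    exact (hn s l s' l' h1 h2 h3 h4).trans hδε
  · intro q
    obtain ⟨q1, q2⟩ := q
    induction q1 using QuotientAddGroup.induction_on with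
    | H x =>
      induction q2 using QuotientAddGroup.induction_on with
      | H y =>
        obtain ⟨n, hn⟩ := (hp p hpE).exists
        have h1 := hn (x - ρ / 2) ρ (y - ρ / 2) ρ hρ0.le hρ1 hρ0.le hρ1
        have h2 : (0 : ℝ) < (Set.ncard {j | j < n ∧ (SM a)^[j] p ∈
            arc (x - ρ / 2) ρ ×ˢ arc (y - ρ / 2) ρ} : ℝ) / n := by
          have := (abs_le.mp h1).1
          nlinarith
        have h3 : 0 < Set.ncard {j | j < n ∧ (SM a)^[j] p ∈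
            arc (x - ρ / 2) ρ ×ˢ arc (y - ρ / 2) ρ} := by
          rcases Nat.eq_zero_or_pos (Set.ncard {j | j < n ∧ (SM a)^[j] p ∈
            arc (x - ρ / 2) ρ ×ˢ arc (y - ρ / 2) ρ}) with h0 | h0
          · rw [h0] at h2; simp at h2
          · exact h0
        have h4 := Set.nonempty_of_ncard_ne_zero h3.ne'
        obtain ⟨j, -, hj⟩ := h4
        refine ⟨j, ?_⟩
        rw [Prod.dist_eq]
        refine max_le ?_ ?_
        · exact (dist_arc hj.1).trans (by linarith)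
        · exact (dist_arc hj.2).trans (by linarith)

end Pool.Agent.W564.MM
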