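import Pool.Agent.W564.MM.Final

/-!
# Project MM: a Bessel type inequality
-/

open MeasureTheory Filter Topology Finset

namespace Pool.Agent.W564.MM

theorem le_of_sq_le_sq_aux {x y : ℝ} (h : x ^ 2 ≤ y ^ 2) (hy : 0 ≤ y) : x ≤ y :=
  (abs_le_of_sq_le_sq' h hy).2

theorem bessel {H : Type*} [NormedAddCommGroup H] [InnerProductSpace ℂ H] {ι : Type*}
    (s : Finset ι) (u : ι → H) (g : H) :
    ∑ j ∈ s, ‖inner ℂ (u j) g‖ ^ 2 ≤
      ‖g‖ ^ 2 * Real.sqrt (∑ j ∈ s, ∑ k ∈ s, ‖inner ℂ (u j) (u k)‖ ^ 2) := by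
  set c : ι → ℂ := fun j => inner ℂ (u j) g with hc
  set S : ℝ := ∑ j ∈ s, ‖c j‖ ^ 2 with hS
  set Q : ℝ := ∑ j ∈ s, ∑ k ∈ s, ‖inner ℂ (u j) (u k)‖ ^ 2 with hQ
  have hS0 : 0 ≤ S := Finset.sum_nonneg fun _ _ => by positivity
  set w : H := ∑ j ∈ s, c j • u j with hw
  have h1 : inner ℂ w g = (S : ℂ) := by
    rw [hw, sum_inner, hS, Complex.ofReal_sum]
    refine Finset.sum_congr rfl fun j _ => ?_
    rw [inner_smul_left]
    have : inner ℂ (u j) g = c j := rfl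
    rw [this, mul_comm, Complex.mul_conj, Complex.normSq_eq_norm_sq]
  have h2 : S ≤ ‖w‖ * ‖g‖ := by
    have := norm_inner_le_norm (𝕜 := ℂ) w g
    rw [h1] at this
    simpa [abs_of_nonneg hS0] using this
  have h3 : ‖w‖ ^ 2 ≤ ∑ j ∈ s, ∑ k ∈ s, (‖c j‖ * ‖c k‖) * ‖inner ℂ (u j) (u k)‖ := by
    have e : ((‖w‖ ^ 2 : ℝ) : ℂ) = inner ℂ w w := by
      rw [inner_self_eq_norm_sq_to_K]; norm_cast
    have e2 : inner ℂ w w = ∑ j ∈ s, ∑ k ∈ s,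
        (starRingEnd ℂ) (c j) * (c k * inner ℂ (u j) (u k)) := by
      conv_lhs => rw [hw]
      rw [sum_inner]
      refine Finset.sum_congr rfl fun j _ => ?_
      rw [inner_smul_left, inner_sum, Finset.mul_sum]
      refine Finset.sum_congr rfl fun k _ => ?_
      rw [inner_smul_right]
    have e3 : ‖w‖ ^ 2 = ‖inner ℂ w w‖ := by
      rw [← e, Complex.norm_real, Real.norm_eq_abs, abs_of_nonneg (by positivity)]
    rw [e3, e2]
    refine (norm_sum_le _ _).trans (Finset.sum_le_sum fun j _ => ?_)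
    refine (norm_sum_le _ _).trans (Finset.sum_le_sum fun k _ => ?_)
    rw [norm_mul, norm_mul, RCLike.norm_conj, mul_assoc]
  have h4 : ∑ j ∈ s, ∑ k ∈ s, (‖c j‖ * ‖c k‖) * ‖inner ℂ (u j) (u k)‖ ≤ S * Real.sqrt Q := by
    have e : ∑ j ∈ s, ∑ k ∈ s, (‖c j‖ * ‖c k‖) * ‖inner ℂ (u j) (u k)‖ =
        ∑ x ∈ s ×ˢ s, (‖c x.1‖ * ‖c x.2‖) * ‖inner ℂ (u x.1) (u x.2)‖ := by
      rw [Finset.sum_product]
    have e2 := Finset.sum_mul_sq_le_sq_mul_sq (s ×ˢ s) (fun x => ‖c x.1‖ * ‖c x.2‖)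
      (fun x => ‖inner ℂ (u x.1) (u x.2)‖)
    have e3 : ∑ x ∈ s ×ˢ s, (‖c x.1‖ * ‖c x.2‖) ^ 2 = S ^ 2 := by
      rw [Finset.sum_product, sq S, hS, Finset.sum_mul_sum]
      refine Finset.sum_congr rfl fun j _ => Finset.sum_congr rfl fun k _ => ?_
      rw [mul_pow]
    have e4 : ∑ x ∈ s ×ˢ s, ‖inner ℂ (u x.1) (u x.2)‖ ^ 2 = Q := by
      rw [Finset.sum_product]
    rw [e3, e4, ← e] at e2
    have hQ0 : 0 ≤ Q := Finset.sum_nonneg fun _ _ => Finset.sum_nonneg fun _ _ => by positivity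
    refine le_of_sq_le_sq_aux ?_ ?_
    · rw [mul_pow, Real.sq_sqrt hQ0]; exact e2
    · positivity
  by_cases hz : S = 0
  · rw [hz]; positivity
  · have hSp : 0 < S := lt_of_le_of_ne hS0 (Ne.symm hz)
    have h5 : S ^ 2 ≤ (S * Real.sqrt Q) * ‖g‖ ^ 2 := by
      calc S ^ 2 ≤ (‖w‖ * ‖g‖) ^ 2 := by gcongr
        _ = ‖w‖ ^ 2 * ‖g‖ ^ 2 := by ring
        _ ≤ _ := by
          gcongr
          exact h3.trans h4
    have h6 : S * S ≤ S * (‖g‖ ^ 2 * Real.sqrt Q) := by nlinarith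
    exact le_of_mul_le_mul_left h6 hSp

end Pool.Agent.W564.MM
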