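import Pool.Agent.W564.MM.Final

/-!
# Project MM: decay of correlations as `|a| → ∞`
-/

open MeasureTheory Filter Topology Finset

namespace Pool.Agent.W564.MM

theorem inst_prob1 : IsProbabilityMeasure (volume : Measure T1) := ⟨UnitAddCircle.measure_univ⟩

theorem int_indep (d : ℕ) (hd : 2 ≤ d) (f h : C(T1 × T1, ℂ)) (hf : ∫ p, f p = 0) :
    ∫ z : Fin (d + 2) → T1, f (z ⟨d + 1, by omega⟩, z ⟨d, by omega⟩) *
      h (z ⟨1, by omega⟩, z ⟨0, by omega⟩) = 0 := by
  have := inst_prob1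
  have hind : ProbabilityTheory.iIndepFun (fun (i : Fin (d + 2)) (z : Fin (d + 2) → T1) => z i)
      (volume : Measure (Fin (d + 2) → T1)) :=
    ProbabilityTheory.iIndepFun_pi (μ := fun _ : Fin (d + 2) => (volume : Measure T1))
      (X := fun _ => id) (fun _ => aemeasurable_id)
  have hI := hind.indepFun_prodMk_prodMk (fun i => measurable_pi_apply i)
    (⟨d + 1, by omega⟩ : Fin (d + 2)) ⟨d, by omega⟩ ⟨1, by omega⟩ ⟨0, by omega⟩
    (by simp only [ne_eq, Fin.mk.injEq]; omega) (by simp only [ne_eq, Fin.mk.injEq]; omega)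
    (by simp only [ne_eq, Fin.mk.injEq]; omega) (by simp only [ne_eq, Fin.mk.injEq]; omega)
  have e1 := hI.integral_fun_comp_mul_comp (f := f) (g := h) (by fun_prop) (by fun_prop)
    f.continuous.aestronglyMeasurable h.continuous.aestronglyMeasurable
  have hI2 := hind.indepFun (i := (⟨d + 1, by omega⟩ : Fin (d + 2))) (j := ⟨d, by omega⟩)
    (by simp only [ne_eq, Fin.mk.injEq]; omega)
  have m1 : Measurable (fun z : Fin (d + 2) → T1 => z ⟨d + 1, by omega⟩) := measurable_pi_apply _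
  have m2 : Measurable (fun z : Fin (d + 2) → T1 => z ⟨d, by omega⟩) := measurable_pi_apply _
  have e2 : Measure.map (fun z : Fin (d + 2) → T1 =>
      (z ⟨d + 1, by omega⟩, z ⟨d, by omega⟩)) volume = (volume : Measure (T1 × T1)) := by
    have e := hI2.map_prod_eq_prod_map_map m1.aemeasurable m2.aemeasurable
    refine e.trans ?_
    rw [Measure.volume_eq_prod]
    congr 1
    · exact (measurePreserving_eval (fun _ : Fin (d + 2) => (volume : Measure T1)) _).map_eq
    · exact (measurePreserving_eval (fun _ : Fin (d + 2) => (volume : Measure T1)) _).map_eq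
  have e3 : ∫ z : Fin (d + 2) → T1, f (z ⟨d + 1, by omega⟩, z ⟨d, by omega⟩) = 0 := by
    have h1 : ∫ p, f p = ∫ p, f p ∂(Measure.map (fun z : Fin (d + 2) → T1 =>
      (z ⟨d + 1, by omega⟩, z ⟨d, by omega⟩)) volume) := by rw [e2]
    rw [h1, integral_map (m1.prodMk m2).aemeasurable f.continuous.aestronglyMeasurable] at hf
    exact hf
  refine e1.trans ?_
  have e4 : (∫ ω : Fin (d + 2) → T1, f (ω ⟨d + 1, by omega⟩, ω ⟨d, by omega⟩)) = 0 := e3
  rw [e4, zero_mul]

theorem decay (hB : S_BAS) (hJ : S_JOINT) (d : ℕ) (hd : 2 ≤ d) (f h : C(T1 × T1, ℂ))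
    (hf : ∫ p, f p = 0) (ε : ℝ) (hε : 0 < ε) :
    ∃ a₀ : ℝ, ∀ a : ℝ, a₀ ≤ |a| → ‖∫ p, f ((SM a)^[d] p) * h p‖ ≤ ε := by
  set F : C(Fin (d + 2) → T1, ℂ) := ⟨fun z => f (z ⟨d + 1, by omega⟩, z ⟨d, by omega⟩) *
      h (z ⟨1, by omega⟩, z ⟨0, by omega⟩), by fun_prop⟩ with hF
  obtain ⟨a₀, ha₀⟩ := joint_T hB hJ (d + 2) F ε hε
  refine ⟨a₀, fun a ha => ?_⟩
  have h1 := ha₀ a ha (SM a) (isStd_SM hB a)
  have h2 : ∫ z, F z = 0 := int_indep d hd f h hf
  rw [h2, sub_zero] at h1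
  have h3 : (fun p : T1 × T1 => F (fun i : Fin (d + 2) => ((SM a)^[(i : ℕ)] p).2)) =
      fun p => f ((SM a)^[d] p) * h p := by
    funext p
    rw [hF]
    simp only [ContinuousMap.coe_mk]
    have e1 : (((SM a)^[d + 1] p).2, ((SM a)^[d] p).2) = (SM a)^[d] p := by
      rw [hB.2.2.2.1 a (d + 1) p, hB.2.2.2.1 a d p]
    have e2 : (((SM a)^[1] p).2, ((SM a)^[0] p).2) = p := by
      rw [hB.2.2.2.1 a 1 p, hB.2.2.2.1 a 0 p]
      rfl
    rw [e1, e2]
  rw [h3] at h1
  exact h1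

/-- the entries of the Gram matrix -/
theorem gram (hB : S_BAS) (a : ℝ) (f h : C(T1 × T1, ℂ)) (k d : ℕ) :
    ∫ p, f ((SM a)^[k + d] p) * h ((SM a)^[k] p) = ∫ p, f ((SM a)^[d] p) * h p := by
  have hm : MeasurePreserving ((SM a)^[k]) volume volume := (hB.2.2.2.2.2.1 a).iterate k
  have hc : Continuous (SM a) := by
    have e : SM a = fun p => (xx a 2 p, xx a 1 p) := by
      funext p
      have := hB.2.2.2.1 a 1 p
      simpa using this
    rw [e]
    exact (hB.2.2.2.2.1 a 2).prodMk (hB.2.2.2.2.1 a 1)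
  have hc2 : Continuous fun p => f ((SM a)^[d] p) * h p :=
    (f.continuous.comp (hc.iterate d)).mul h.continuous
  have e := hm.map_eq
  have e2 : ∫ p, f ((SM a)^[d] p) * h p = ∫ p, f ((SM a)^[d] p) * h p
      ∂(Measure.map ((SM a)^[k]) volume) := by rw [e]
  rw [e2, integral_map hm.measurable.aemeasurable hc2.aestronglyMeasurable]
  refine integral_congr_ae (Eventually.of_forall fun p => ?_)
  simp only
  rw [← Function.iterate_add_apply, add_comm d k]

end Pool.Agent.W564.MM
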