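import Pool.Agent.W564.MM.WM1
import Pool.Agent.W564.MM.WM2

/-!
# Project MM: correlations are small in mean square in every time window
-/

open MeasureTheory Filter Topology Finset

namespace Pool.Agent.W564.MM

theorem gram_sum (L : ℕ) (G : ℕ → ℕ → ℝ) (δ K : ℝ) (hK : 0 ≤ K)
    (h1 : ∀ j < L, ∀ k < L, G j k ≤ δ ^ 2 + (if j ≤ k + 1 ∧ k ≤ j + 1 then K else 0)) :
    ∑ j ∈ range L, ∑ k ∈ range L, G j k ≤ (L : ℝ) ^ 2 * δ ^ 2 + 3 * L * K := by
  have h2 : ∀ j ∈ range L, ∑ k ∈ range L, G j k ≤ L * δ ^ 2 + 3 * K := by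
    intro j hj
    calc ∑ k ∈ range L, G j k
        ≤ ∑ k ∈ range L, (δ ^ 2 + (if j ≤ k + 1 ∧ k ≤ j + 1 then K else 0)) :=
          Finset.sum_le_sum fun k hk => h1 j (mem_range.mp hj) k (mem_range.mp hk)
      _ = L * δ ^ 2 + ∑ k ∈ range L, (if j ≤ k + 1 ∧ k ≤ j + 1 then K else 0) := by
          rw [Finset.sum_add_distrib, Finset.sum_const, card_range, nsmul_eq_mul]
      _ ≤ L * δ ^ 2 + 3 * K := by
          gcongr
          rw [← Finset.sum_filter, Finset.sum_const, nsmul_eq_mul]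
          gcongr
          have hsub : (range L).filter (fun k => j ≤ k + 1 ∧ k ≤ j + 1) ⊆ Icc (j - 1) (j + 1) := by
            intro k hk
            simp only [mem_filter, mem_range, mem_Icc] at hk ⊢
            omega
          have hc := Finset.card_le_card hsub
          rw [Nat.card_Icc] at hc
          have : j + 1 + 1 - (j - 1) ≤ 3 := by omega
          exact_mod_cast hc.trans this
  calc ∑ j ∈ range L, ∑ k ∈ range L, G j k ≤ ∑ j ∈ range L, (L * δ ^ 2 + 3 * K) :=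
        Finset.sum_le_sum h2
    _ = (L : ℝ) ^ 2 * δ ^ 2 + 3 * L * K := by
        rw [Finset.sum_const, card_range, nsmul_eq_mul]; ring

theorem inst_prob2 : IsProbabilityMeasure (volume : Measure (T1 × T1)) := by
  have := inst_prob1
  infer_instance

theorem cont_SM (hB : S_BAS) (a : ℝ) : Continuous (SM a) := by
  have e : SM a = fun p => (xx a 2 p, xx a 1 p) := by
    funext p
    have := hB.2.2.2.1 a 1 p
    simpa using this
  rw [e]
  exact (hB.2.2.2.2.1 a 2).prodMk (hB.2.2.2.2.1 a 1)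

theorem memLp_cont {f : T1 × T1 → ℂ} (hf : Continuous f) : MemLp f 2 volume := by
  have := inst_prob2
  obtain ⟨C, hC⟩ := isCompact_univ.exists_bound_of_continuousOn (f := f) hf.continuousOn
  exact MemLp.of_bound hf.aestronglyMeasurable C (Eventually.of_forall fun p => hC p trivial)

/-- the main estimate, for a function of mean zero -/
theorem window0 (hB : S_BAS) (hJ : S_JOINT) (f : C(T1 × T1, ℂ)) (hf : ∫ p, f p = 0) (ε : ℝ)
    (hε : 0 < ε) :
    ∃ L : ℕ, 1 ≤ L ∧ ∃ a₀ : ℝ, ∀ a : ℝ, a₀ ≤ |a| → ∀ g : T1 × T1 → ℂ, MemLp g 2 volume →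
      ∫ p, ‖g p‖ ^ 2 ≤ 1 → ∀ n : ℕ,
        (L : ℝ)⁻¹ * ∑ j ∈ range L, ‖∫ p, f ((SM a)^[n + j] p) * g p‖ ^ 2 ≤ ε := by
  have := inst_prob2
  set M : ℝ := ‖f‖ with hM
  have hM0 : 0 ≤ M := norm_nonneg _
  obtain ⟨L, hL⟩ := exists_nat_ge (6 * (M ^ 2) ^ 2 / ε ^ 2 + 1)
  have hL1 : (1 : ℝ) ≤ L := le_trans (by
    have : 0 ≤ 6 * (M ^ 2) ^ 2 / ε ^ 2 := by positivity
    linarith) hL
  have hL1' : 1 ≤ L := by exact_mod_cast hL1
  have hLM : 6 * (M ^ 2) ^ 2 ≤ ε ^ 2 * L := by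
    have h1 : 6 * (M ^ 2) ^ 2 / ε ^ 2 ≤ L := by linarith
    rw [div_le_iff₀ (by positivity)] at h1
    linarith
  set fs : C(T1 × T1, ℂ) := star f with hfs
  have hfsv : ∀ p, fs p = (starRingEnd ℂ) (f p) := fun p => rfl
  have hdec : ∀ d : ℕ, ∃ a₀ : ℝ, 2 ≤ d → ∀ a : ℝ, a₀ ≤ |a| →
      ‖∫ p, f ((SM a)^[d] p) * fs p‖ ≤ ε / 2 := by
    intro d
    by_cases hd : 2 ≤ d
    · obtain ⟨a₀, h⟩ := decay hB hJ d hd f fs hf (ε / 2) (by positivity)
      exact ⟨a₀, fun _ => h⟩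
    · exact ⟨0, fun h => absurd h hd⟩
  choose A hA using hdec
  refine ⟨L, hL1', ∑ d ∈ range L, |A d|, fun a ha g hg hg1 n => ?_⟩
  have hAa : ∀ d < L, A d ≤ |a| := fun d hd =>
    (le_abs_self _).trans ((Finset.single_le_sum (f := fun d => |A d|) (fun i _ => abs_nonneg _)
      (mem_range.mpr hd)).trans ha)
  have hcu : ∀ j : ℕ, Continuous fun p => fs ((SM a)^[n + j] p) := fun j =>
    fs.continuous.comp ((cont_SM hB a).iterate _)
  set u : ℕ → Lp ℂ 2 (volume : Measure (T1 × T1)) := fun j => (memLp_cont (hcu j)).toLp _ with hu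
  set G : Lp ℂ 2 (volume : Measure (T1 × T1)) := hg.toLp g with hG
  have hin1 : ∀ j, inner ℂ (u j) G = ∫ p, f ((SM a)^[n + j] p) * g p := by
    intro j
    rw [L2.inner_def]
    refine integral_congr_ae ?_
    filter_upwards [(memLp_cont (hcu j)).coeFn_toLp, hg.coeFn_toLp] with p h1 h2
    rw [hu, hG]
    simp only
    rw [h1, h2, hfsv]
    simp [RCLike.inner_apply, mul_comm]
  have hin2 : ∀ j k, inner ℂ (u j) (u k) =
      ∫ p, f ((SM a)^[n + j] p) * fs ((SM a)^[n + k] p) := by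
    intro j k
    rw [L2.inner_def]
    refine integral_congr_ae ?_
    filter_upwards [(memLp_cont (hcu j)).coeFn_toLp, (memLp_cont (hcu k)).coeFn_toLp] with p h1 h2
    rw [hu]
    simp only
    rw [h1, h2, hfsv, hfsv]
    simp [RCLike.inner_apply, mul_comm]
  have hfar : ∀ k d : ℕ, 2 ≤ d → d < L → ‖inner ℂ (u (k + d)) (u k)‖ ≤ ε / 2 := by
    intro k d hd hdL
    rw [hin2, ← add_assoc, gram hB a f fs (n + k) d]
    exact hA d hd a (hAa d hdL)
  have hnear : ∀ j k, ‖inner ℂ (u j) (u k)‖ ≤ M ^ 2 := by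
    intro j k
    rw [hin2]
    have h1 := norm_integral_le_of_norm_le_const (μ := (volume : Measure (T1 × T1)))
      (f := fun p => f ((SM a)^[n + j] p) * fs ((SM a)^[n + k] p)) (C := M ^ 2)
      (Eventually.of_forall fun p => by
        rw [norm_mul, hfsv, RCLike.norm_conj, sq]
        exact mul_le_mul (f.norm_coe_le_norm _) (f.norm_coe_le_norm _) (norm_nonneg _) hM0)
    simpa using h1
  have hgs := gram_sum L (fun j k => ‖inner ℂ (u j) (u k)‖ ^ 2) (ε / 2) ((M ^ 2) ^ 2)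
    (by positivity) (by
      intro j hj k hk
      by_cases hc : j ≤ k + 1 ∧ k ≤ j + 1
      · rw [if_pos hc]
        have h1 := hnear j k
        have h2 : ‖inner ℂ (u j) (u k)‖ ^ 2 ≤ (M ^ 2) ^ 2 := by gcongr
        have h3 : 0 ≤ (ε / 2) ^ 2 := by positivity
        linarith
      · rw [if_neg hc, add_zero]
        have h1 : ‖inner ℂ (u j) (u k)‖ ≤ ε / 2 := by
          rcases Nat.lt_or_ge k j with hkj | hkj
          · obtain ⟨d, rfl⟩ := Nat.exists_eq_add_of_le hkj.le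
            exact hfar k d (by omega) (by omega)
          · obtain ⟨d, rfl⟩ := Nat.exists_eq_add_of_le hkj
            rw [norm_inner_symm]
            exact hfar j d (by omega) (by omega)
        gcongr)
  have hbes := bessel (range L) u G
  have hGn : ‖G‖ ^ 2 ≤ 1 := by
    have h1 : ((‖G‖ ^ 2 : ℝ) : ℂ) = inner ℂ G G := by
      rw [inner_self_eq_norm_sq_to_K]; norm_cast
    have h2 : inner ℂ G G = ((∫ p, ‖g p‖ ^ 2 : ℝ) : ℂ) := by
      rw [L2.inner_def]
      refine Eq.trans (integral_congr_ae ?_)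
        (integral_complex_ofReal (μ := volume) (f := fun p => ‖g p‖ ^ 2))
      filter_upwards [hg.coeFn_toLp] with p h2
      rw [hG, h2]
      rw [inner_self_eq_norm_sq_to_K]; norm_cast
    have h3 : (‖G‖ ^ 2 : ℝ) = ∫ p, ‖g p‖ ^ 2 := by
      exact_mod_cast h1.trans h2
    rw [h3]; exact hg1
  have hsum : ∑ j ∈ range L, ‖∫ p, f ((SM a)^[n + j] p) * g p‖ ^ 2 ≤ ε * L := by
    calc ∑ j ∈ range L, ‖∫ p, f ((SM a)^[n + j] p) * g p‖ ^ 2
        = ∑ j ∈ range L, ‖inner ℂ (u j) G‖ ^ 2 := by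
          refine Finset.sum_congr rfl fun j _ => ?_
          rw [hin1]
      _ ≤ ‖G‖ ^ 2 * Real.sqrt (∑ j ∈ range L, ∑ k ∈ range L, ‖inner ℂ (u j) (u k)‖ ^ 2) := hbes
      _ ≤ 1 * Real.sqrt ((ε * L) ^ 2) := by
          gcongr
          refine hgs.trans ?_
          have h5 : 3 * (L : ℝ) * (M ^ 2) ^ 2 ≤ ε ^ 2 * L ^ 2 / 2 := by nlinarith
          nlinarith [sq_nonneg (ε * L)]
      _ = ε * L := by rw [Real.sqrt_sq (by positivity), one_mul]
  have hLp : (0 : ℝ) < L := by linarith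
  calc (L : ℝ)⁻¹ * ∑ j ∈ range L, ‖∫ p, f ((SM a)^[n + j] p) * g p‖ ^ 2
      ≤ (L : ℝ)⁻¹ * (ε * L) := by gcongr
    _ = ε := by field_simp

/-- **Macroscopic weak mixing.** -/
theorem window (hB : S_BAS) (hJ : S_JOINT) (f : C(T1 × T1, ℂ)) (ε : ℝ) (hε : 0 < ε) :
    ∃ L : ℕ, 1 ≤ L ∧ ∃ a₀ : ℝ, ∀ a : ℝ, a₀ ≤ |a| → ∀ T : T1 × T1 → T1 × T1, IsStd a T →
      ∀ g : T1 × T1 → ℂ, MemLp g 2 volume → ∫ p, ‖g p‖ ^ 2 ≤ 1 → ∀ n : ℕ,
        (L : ℝ)⁻¹ * ∑ j ∈ range L,
          ‖(∫ p, f (T^[n + j] p) * g p) - (∫ p, f p) * ∫ p, g p‖ ^ 2 ≤ ε := by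
  have := inst_prob2
  set f0 : C(T1 × T1, ℂ) := f - ContinuousMap.const _ (∫ p, f p) with hf0
  have hfi : Integrable f (volume : Measure (T1 × T1)) :=
    (memLp_cont f.continuous).integrable (by norm_num)
  have hf00 : ∫ p, f0 p = 0 := by
    have e : ∀ p, f0 p = f p - ∫ p, f p := fun p => rfl
    simp only [e]
    rw [integral_sub hfi (integrable_const _)]
    simp
  obtain ⟨L, hL, a₀, h⟩ := window0 hB hJ f0 hf00 ε hε
  refine ⟨L, hL, a₀, fun a ha T hT g hg hg1 n => ?_⟩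
  have hTa := hT.eq hB
  subst hTa
  have h1 := h a ha g hg hg1 n
  have hgi : Integrable g (volume : Measure (T1 × T1)) := hg.integrable (by norm_num)
  have e : ∀ j : ℕ, (∫ p, f ((SM a)^[n + j] p) * g p) - (∫ p, f p) * ∫ p, g p =
      ∫ p, f0 ((SM a)^[n + j] p) * g p := by
    intro j
    have hfc : Continuous fun p => f ((SM a)^[n + j] p) :=
      f.continuous.comp ((cont_SM hB a).iterate _)
    have hi1 : Integrable (fun p => f ((SM a)^[n + j] p) * g p) volume :=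
      (memLp_cont hfc).integrable_mul hg
    have hi2 : Integrable (fun p => (∫ p, f p) * g p) volume := hgi.const_mul _
    rw [← integral_const_mul, ← integral_sub hi1 hi2]
    refine integral_congr_ae (Eventually.of_forall fun p => ?_)
    simp only [hf0, ContinuousMap.sub_apply, ContinuousMap.const_apply]
    ring
  simp only [e]
  exact h1

end Pool.Agent.W564.MM
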