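import Pool.Agent.W564.MM.WM3

/-!
# Project MM: weak mixing at positive scale for all `L²` functions, and eigenfunctions
-/

open MeasureTheory Filter Topology Finset

namespace Pool.Agent.W564.MM

theorem norm_toLp_sq (g : T1 × T1 → ℂ) (hg : MemLp g 2 volume) :
    (eLpNorm g 2 volume).toReal ^ 2 = ∫ p, ‖g p‖ ^ 2 := by
  set G : Lp ℂ 2 (volume : Measure (T1 × T1)) := hg.toLp g with hG
  have h0 : ‖G‖ = (eLpNorm g 2 volume).toReal := Lp.norm_toLp g hg
  have h1 : ((‖G‖ ^ 2 : ℝ) : ℂ) = inner ℂ G G := by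
    rw [inner_self_eq_norm_sq_to_K]; norm_cast
  have h2 : inner ℂ G G = ((∫ p, ‖g p‖ ^ 2 : ℝ) : ℂ) := by
    rw [L2.inner_def]
    refine Eq.trans (integral_congr_ae ?_)
      (integral_complex_ofReal (μ := volume) (f := fun p => ‖g p‖ ^ 2))
    filter_upwards [hg.coeFn_toLp] with p h2
    rw [hG, h2]
    rw [inner_self_eq_norm_sq_to_K]; norm_cast
  rw [← h0]
  exact_mod_cast h1.trans h2

theorem nrm_le (g : T1 × T1 → ℂ) (hg : MemLp g 2 volume) (h1 : ∫ p, ‖g p‖ ^ 2 ≤ 1) :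
    (eLpNorm g 2 volume).toReal ≤ 1 := by
  have h := norm_toLp_sq g hg
  rw [← h] at h1
  exact (sq_le_one_iff₀ ENNReal.toReal_nonneg).mp h1

theorem cs_int (h g : T1 × T1 → ℂ) (hh : MemLp h 2 volume) (hg : MemLp g 2 volume) :
    ‖∫ p, h p * g p‖ ≤ (eLpNorm h 2 volume).toReal * (eLpNorm g 2 volume).toReal := by
  have hs : MemLp (fun p => (starRingEnd ℂ) (h p)) 2 volume := by
    refine hh.congr_norm (Complex.continuous_conj.comp_aestronglyMeasurable hh.1) ?_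
    exact Eventually.of_forall fun p => by simp
  have hse : eLpNorm (fun p => (starRingEnd ℂ) (h p)) 2 volume = eLpNorm h 2 volume :=
    eLpNorm_congr_norm_ae (Eventually.of_forall fun p => by simp)
  have h1 : inner ℂ (hs.toLp _) (hg.toLp g) = ∫ p, h p * g p := by
    rw [L2.inner_def]
    refine integral_congr_ae ?_
    filter_upwards [hs.coeFn_toLp, hg.coeFn_toLp] with p h1 h2
    rw [h1, h2]
    simp [RCLike.inner_apply, mul_comm]
  rw [← h1]
  refine (norm_inner_le_norm _ _).trans ?_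
  rw [Lp.norm_toLp, Lp.norm_toLp, hse]

/-- **Macroscopic weak mixing for all `L²` functions.** -/
theorem windowL2 (hB : S_BAS) (hJ : S_JOINT) (f : T1 × T1 → ℂ) (hf : MemLp f 2 volume) (ε : ℝ)
    (hε : 0 < ε) :
    ∃ L : ℕ, 1 ≤ L ∧ ∃ a₀ : ℝ, ∀ a : ℝ, a₀ ≤ |a| → ∀ T : T1 × T1 → T1 × T1, IsStd a T →
      ∀ g : T1 × T1 → ℂ, MemLp g 2 volume → ∫ p, ‖g p‖ ^ 2 ≤ 1 → ∀ n : ℕ,
        (L : ℝ)⁻¹ * ∑ j ∈ range L,
          ‖(∫ p, f (T^[n + j] p) * g p) - (∫ p, f p) * ∫ p, g p‖ ^ 2 ≤ ε := by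
  have := inst_prob2
  set η : ℝ := Real.sqrt (ε / 16) with hη
  have hη0 : 0 < η := Real.sqrt_pos.mpr (by positivity)
  have hη2 : η ^ 2 = ε / 16 := Real.sq_sqrt (by positivity)
  obtain ⟨f1, hf1, hf1m⟩ := hf.exists_boundedContinuous_eLpNorm_sub_le (by norm_num)
    (ε := ENNReal.ofReal η) (by simpa using hη0)
  set F : C(T1 × T1, ℂ) := f1.toContinuousMap with hF
  obtain ⟨L, hL, a₀, h⟩ := window hB hJ F (ε / 4) (by positivity)
  refine ⟨L, hL, a₀, fun a ha T hT g hg hg1 n => ?_⟩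
  have h1 := h a ha T hT g hg hg1 n
  have hTa := hT.eq hB
  subst hTa
  have hgn := nrm_le g hg hg1
  set r : T1 × T1 → ℂ := f - F with hr
  have hrm : MemLp r 2 volume := hf.sub hf1m
  have hrn : (eLpNorm r 2 volume).toReal ≤ η := by
    have : (eLpNorm r 2 volume) ≤ ENNReal.ofReal η := hf1
    calc (eLpNorm r 2 volume).toReal ≤ (ENNReal.ofReal η).toReal :=
          ENNReal.toReal_mono ENNReal.ofReal_ne_top this
      _ = η := ENNReal.toReal_ofReal hη0.le
  have hmp : ∀ m : ℕ, MeasurePreserving ((SM a)^[m]) volume volume := fun m =>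
    (hB.2.2.2.2.2.1 a).iterate m
  have hrT : ∀ m : ℕ, ‖∫ p, r ((SM a)^[m] p) * g p‖ ≤ η := by
    intro m
    have h2 := cs_int (fun p => r ((SM a)^[m] p)) g (hrm.comp_measurePreserving (hmp m)) hg
    have h3 : eLpNorm (fun p => r ((SM a)^[m] p)) 2 volume = eLpNorm r 2 volume :=
      eLpNorm_comp_measurePreserving hrm.1 (hmp m)
    rw [h3] at h2
    refine h2.trans ?_
    calc (eLpNorm r 2 volume).toReal * (eLpNorm g 2 volume).toReal ≤ η * 1 :=
          mul_le_mul hrn hgn ENNReal.toReal_nonneg hη0.le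
      _ = η := mul_one _
  have h1m : MemLp (fun _ : T1 × T1 => (1 : ℂ)) 2 volume := memLp_const 1
  have h1n : (eLpNorm (fun _ : T1 × T1 => (1 : ℂ)) 2 volume).toReal ≤ 1 :=
    nrm_le _ h1m (by simp)
  have hr1 : ‖∫ p, r p‖ ≤ η := by
    have h2 := cs_int r (fun _ => 1) hrm h1m
    simp only [mul_one] at h2
    refine h2.trans ?_
    calc (eLpNorm r 2 volume).toReal * _ ≤ η * 1 :=
          mul_le_mul hrn h1n ENNReal.toReal_nonneg hη0.le
      _ = η := mul_one _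
  have hg1' : ‖∫ p, g p‖ ≤ 1 := by
    have h2 := cs_int (fun _ => 1) g h1m hg
    simp only [one_mul] at h2
    refine h2.trans ?_
    calc _ * (eLpNorm g 2 volume).toReal ≤ (1 : ℝ) * 1 :=
          mul_le_mul h1n hgn ENNReal.toReal_nonneg zero_le_one
      _ = 1 := mul_one _
  have hfi : Integrable f (volume : Measure (T1 × T1)) := hf.integrable (by norm_num)
  have hFi : Integrable F (volume : Measure (T1 × T1)) :=
    (memLp_cont F.continuous).integrable (by norm_num)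
  have key : ∀ m : ℕ, ‖(∫ p, f ((SM a)^[m] p) * g p) - (∫ p, f p) * ∫ p, g p‖ ^ 2 ≤
      2 * ‖(∫ p, F ((SM a)^[m] p) * g p) - (∫ p, F p) * ∫ p, g p‖ ^ 2 + 2 * (2 * η) ^ 2 := by
    intro m
    have hi1 : Integrable (fun p => F ((SM a)^[m] p) * g p) volume :=
      (memLp_cont (F.continuous.comp ((cont_SM hB a).iterate _))).integrable_mul hg
    have hi2 : Integrable (fun p => r ((SM a)^[m] p) * g p) volume :=
      (hrm.comp_measurePreserving (hmp m)).integrable_mul hg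
    have e1 : ∫ p, f ((SM a)^[m] p) * g p =
        (∫ p, F ((SM a)^[m] p) * g p) + ∫ p, r ((SM a)^[m] p) * g p := by
      rw [← integral_add hi1 hi2]
      refine integral_congr_ae (Eventually.of_forall fun p => ?_)
      simp only [hr, Pi.sub_apply]
      ring
    have e2 : ∫ p, f p = (∫ p, F p) + ∫ p, r p := by
      rw [← integral_add hFi (hfi.sub hFi)]
      refine integral_congr_ae (Eventually.of_forall fun p => ?_)
      simp only [hr, Pi.sub_apply]
      ring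
    have e3 : (∫ p, f ((SM a)^[m] p) * g p) - (∫ p, f p) * ∫ p, g p =
        ((∫ p, F ((SM a)^[m] p) * g p) - (∫ p, F p) * ∫ p, g p) +
        ((∫ p, r ((SM a)^[m] p) * g p) - (∫ p, r p) * ∫ p, g p) := by
      rw [e1, e2]; ring
    have h4 : ‖(∫ p, r ((SM a)^[m] p) * g p) - (∫ p, r p) * ∫ p, g p‖ ≤ 2 * η := by
      refine (norm_sub_le _ _).trans ?_
      rw [norm_mul]
      have := mul_le_mul hr1 hg1' (norm_nonneg _) hη0.le
      linarith [hrT m]
    rw [e3]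
    have h5 := norm_add_le ((∫ p, F ((SM a)^[m] p) * g p) - (∫ p, F p) * ∫ p, g p)
      ((∫ p, r ((SM a)^[m] p) * g p) - (∫ p, r p) * ∫ p, g p)
    have h6 := norm_nonneg (((∫ p, F ((SM a)^[m] p) * g p) - (∫ p, F p) * ∫ p, g p) +
      ((∫ p, r ((SM a)^[m] p) * g p) - (∫ p, r p) * ∫ p, g p))
    have h7 := norm_nonneg ((∫ p, F ((SM a)^[m] p) * g p) - (∫ p, F p) * ∫ p, g p)
    generalize ‖(∫ p, F ((SM a)^[m] p) * g p) - (∫ p, F p) * ∫ p, g p‖ = A at *
    generalize ‖(∫ p, r ((SM a)^[m] p) * g p) - (∫ p, r p) * ∫ p, g p‖ = B at *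
    have h8 : ∀ N : ℝ, 0 ≤ N → N ≤ A + B → B ≤ 2 * η → 0 ≤ A →
        N ^ 2 ≤ 2 * A ^ 2 + 2 * (2 * η) ^ 2 := by
      intro N hN0 hN hB' hA0
      have h9 : N ≤ A + 2 * η := by linarith
      have h10 : N ^ 2 ≤ (A + 2 * η) ^ 2 := by gcongr
      nlinarith [sq_nonneg (A - 2 * η)]
    exact h8 _ h6 h5 h4 h7
  have hL0 : (0 : ℝ) < L := by exact_mod_cast hL
  calc (L : ℝ)⁻¹ * ∑ j ∈ range L,
        ‖(∫ p, f ((SM a)^[n + j] p) * g p) - (∫ p, f p) * ∫ p, g p‖ ^ 2
      ≤ (L : ℝ)⁻¹ * ∑ j ∈ range L, (2 * ‖(∫ p, F ((SM a)^[n + j] p) * g p) -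
          (∫ p, F p) * ∫ p, g p‖ ^ 2 + 2 * (2 * η) ^ 2) := by
        gcongr with j hj
        exact key (n + j)
    _ = 2 * ((L : ℝ)⁻¹ * ∑ j ∈ range L, ‖(∫ p, F ((SM a)^[n + j] p) * g p) -
          (∫ p, F p) * ∫ p, g p‖ ^ 2) + 8 * η ^ 2 := by
        rw [Finset.sum_add_distrib, ← Finset.mul_sum, Finset.sum_const, card_range, nsmul_eq_mul]
        field_simp
        ring
    _ ≤ 2 * (ε / 4) + 8 * (ε / 16) := by
        rw [hη2]
        gcongr
    _ = ε := by ring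

/-- **Eigenfunctions.** -/
theorem eigen (hB : S_BAS) (hJ : S_JOINT) (f : T1 × T1 → ℂ) (hf : MemLp f 2 volume) (ε : ℝ)
    (hε : 0 < ε) :
    ∃ a₀ : ℝ, ∀ a : ℝ, a₀ ≤ |a| → ∀ T : T1 × T1 → T1 × T1, IsStd a T →
      ∀ g : T1 × T1 → ℂ, MemLp g 2 volume → ∫ p, ‖g p‖ ^ 2 ≤ 1 → ∀ c : ℂ, ‖c‖ = 1 →
        (∀ᵐ p, g (T p) = c * g p) → ‖(∫ p, f p * g p) - (∫ p, f p) * ∫ p, g p‖ ^ 2 ≤ ε := by
  have := inst_prob2
  obtain ⟨L, hL, a₀, h⟩ := windowL2 hB hJ f hf ε hε
  refine ⟨a₀, fun a ha T hT g hg hg1 c hc hgc => ?_⟩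
  have h1 := h a ha T hT g hg hg1 0
  have hTa := hT.eq hB
  subst hTa
  have hmp : ∀ m : ℕ, MeasurePreserving ((SM a)^[m]) volume volume := fun m =>
    (hB.2.2.2.2.2.1 a).iterate m
  have hgm : ∀ m : ℕ, ∀ᵐ p, g ((SM a)^[m] p) = c ^ m * g p := by
    intro m
    induction m with
    | zero => exact Eventually.of_forall fun p => by simp
    | succ m ih =>
      have h2 := (hmp m).quasiMeasurePreserving.ae hgc
      filter_upwards [ih, h2] with p h3 h4
      rw [Function.iterate_succ_apply', h4, h3, pow_succ]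
      ring
  have hint : ∀ m : ℕ, c ^ m * (∫ p, f ((SM a)^[m] p) * g p) = ∫ p, f p * g p := by
    intro m
    have hfg : Integrable (fun p => f p * g p) volume := hf.integrable_mul hg
    have e := (hmp m).map_eq
    have e2 : ∫ p, f p * g p = ∫ p, f ((SM a)^[m] p) * g ((SM a)^[m] p) := by
      conv_lhs => rw [← e]
      rw [integral_map (hmp m).measurable.aemeasurable]
      rw [e]; exact hfg.aestronglyMeasurable
    rw [e2, ← integral_const_mul]
    refine integral_congr_ae ?_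
    filter_upwards [hgm m] with p hp
    rw [hp]; ring
  have hint1 : ∀ m : ℕ, c ^ m * (∫ p, g p) = ∫ p, g p := by
    intro m
    have hgi : Integrable g volume := hg.integrable (by norm_num)
    have e := (hmp m).map_eq
    have e2 : ∫ p, g p = ∫ p, g ((SM a)^[m] p) := by
      conv_lhs => rw [← e]
      rw [integral_map (hmp m).measurable.aemeasurable]
      rw [e]; exact hgi.aestronglyMeasurable
    conv_rhs => rw [e2]
    rw [← integral_const_mul]
    refine integral_congr_ae ?_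
    filter_upwards [hgm m] with p hp
    rw [hp]
  have hterm : ∀ j ∈ range L, ‖(∫ p, f ((SM a)^[0 + j] p) * g p) - (∫ p, f p) * ∫ p, g p‖ ^ 2 =
      ‖(∫ p, f p * g p) - (∫ p, f p) * ∫ p, g p‖ ^ 2 := by
    intro j _
    rw [zero_add]
    have e : c ^ j * ((∫ p, f ((SM a)^[j] p) * g p) - (∫ p, f p) * ∫ p, g p) =
        (∫ p, f p * g p) - (∫ p, f p) * ∫ p, g p := by
      rw [mul_sub, hint j]
      congr 1
      rw [mul_left_comm, hint1 j]
    rw [← e, norm_mul, norm_pow, hc, one_pow, one_mul]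
  rw [Finset.sum_congr rfl hterm, Finset.sum_const, card_range, nsmul_eq_mul] at h1
  have hL0 : (0 : ℝ) < L := by exact_mod_cast hL
  rwa [← mul_assoc, inv_mul_cancel₀ hL0.ne', one_mul] at h1

end Pool.Agent.W564.MM
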